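import Mathlib
import Pool.Agent.Y119.HG.Defs

/-!
# No step of the flag is defined over the small field
-/

set_option autoImplicit false

open Matrix

namespace Pool.Agent.Y929.HG

open Pool.Agent.Y119.HG

section van

variable {k L : Type} [Field k] [Field L] [Algebra k L] {m : ℕ} {ι : Type} [Fintype ι]
  {G : Matrix (S m) (S m) L} {T : Matrix (S m) ι L}

omit [Fintype ι] in
/-- the derivative of the product -/
lemma prod_der (D : Derivation k L L) (z : L) (Y : Matrix (S m) (S m) L)
    (hG : G.map D = Y * G) (hT : T.map D = z • T) (s : S m) (y : ι) :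
    D ((G * T) s y) = ∑ u, Y s u * (G * T) u y + z * (G * T) s y := by
  have h1 : D ((G * T) s y) = (G.map D * T) s y + (G * T.map D) s y := by
    rw [Matrix.mul_apply, Matrix.mul_apply, Matrix.mul_apply, map_sum, ← Finset.sum_add_distrib]
    refine Finset.sum_congr rfl fun u _ => ?_
    rw [D.leibniz, smul_eq_mul, smul_eq_mul, Matrix.map_apply, Matrix.map_apply]
    ring
  rw [h1, hG, hT, Matrix.mul_assoc, Matrix.mul_smul, Matrix.smul_apply, smul_eq_mul,
    Matrix.mul_apply (M := Y)]

/-- the entries of the direction which vanish -/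
lemma vanish (p : ℕ) (x : Fin p → ι → k) (e e' : Fin p → Fin p → L)
    (hW' : ∃ W' : Matrix ι (S m) L, (G * T) * W' = 1)
    (h1 : ∀ (i : Fin m) (hi : (i : ℕ) < p),
      (G * T) (Sum.inl i) = ∑ j, e ⟨i, hi⟩ j • fun l => algebraMap k L (x j l))
    (h2 : ∀ j : Fin p, (fun l => algebraMap k L (x j l)) =
      ∑ i : Fin m, if h : (i : ℕ) < p then e' j ⟨i, h⟩ • (G * T) (Sum.inl i) else 0)
    (D : Derivation k L L) (z : L) (X Z : Matrix (Fin m) (Fin m) L)
    (hG : G.map D = Ysp X Z * G) (hT : T.map D = z • T) (i : Fin m) (hi : (i : ℕ) < p) :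
    (∀ l, Z i l = 0) ∧ ∀ l : Fin m, p ≤ (l : ℕ) → X i l = 0 := by
  classical
  obtain ⟨W', hW'⟩ := hW'
  obtain ⟨W, hWd⟩ : ∃ W, W = G * T := ⟨_, rfl⟩
  have hD := prod_der D z (Ysp X Z) hG hT
  rw [← hWd] at hW' h1 h2 hD
  let c : Fin m → L := fun l =>
    ∑ j, D (e ⟨i, hi⟩ j) * (if h : (l : ℕ) < p then e' j ⟨l, h⟩ else 0)
  have hc : ∀ y, D (W (Sum.inl i) y) = ∑ l, c l * W (Sum.inl l) y := by
    intro y
    have e1 : W (Sum.inl i) y = ∑ j, e ⟨i, hi⟩ j * algebraMap k L (x j y) := by
      rw [h1 i hi, Finset.sum_apply]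
      rfl
    have e2 : ∀ j, algebraMap k L (x j y) =
        ∑ l : Fin m, (if h : (l : ℕ) < p then e' j ⟨l, h⟩ else 0) * W (Sum.inl l) y := by
      intro j
      have e3 := congrFun (h2 j) y
      simp only [Finset.sum_apply] at e3
      rw [e3]
      refine Finset.sum_congr rfl fun l _ => ?_
      split_ifs with h
      · rfl
      · simp
    rw [e1, map_sum]
    have e4 : ∀ j, D (e ⟨i, hi⟩ j * algebraMap k L (x j y)) =
        D (e ⟨i, hi⟩ j) * algebraMap k L (x j y) := by
      intro j
      rw [D.leibniz, D.map_algebraMap, smul_zero, zero_add, smul_eq_mul, mul_comm]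
    rw [Finset.sum_congr rfl fun j _ => e4 j, Finset.sum_congr rfl fun j _ => by rw [e2 j]]
    simp only [c, Finset.mul_sum, Finset.sum_mul]
    rw [Finset.sum_comm]
    refine Finset.sum_congr rfl fun l _ => Finset.sum_congr rfl fun j _ => ?_
    ring
  let q : S m → L := fun s =>
    Sum.elim c (fun _ => 0) s - Ysp X Z (Sum.inl i) s - (if s = Sum.inl i then z else 0)
  have hq : ∀ y, ∑ s, q s * W s y = 0 := by
    intro y
    have e1 := hD (Sum.inl i) y
    rw [hc y] at e1
    have e2 : ∑ s, Sum.elim c (fun _ => (0 : L)) s * W s y = ∑ l, c l * W (Sum.inl l) y := by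
      rw [Fintype.sum_sum_type]
      simp
    have e3 : ∑ s, (if s = Sum.inl i then z else 0) * W s y = z * W (Sum.inl i) y := by
      rw [Finset.sum_eq_single (Sum.inl i)]
      · rw [if_pos rfl]
      · intro s _ hs
        rw [if_neg hs, zero_mul]
      · intro h
        exact absurd (Finset.mem_univ _) h
    simp only [q, sub_mul]
    rw [Finset.sum_sub_distrib, Finset.sum_sub_distrib, e2, e3, e1]
    ring
  have hq0 : ∀ s', q s' = 0 := by
    intro s'
    have e1 : q s' = ∑ s, q s * (W * W') s s' := by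
      rw [hW', Finset.sum_eq_single s']
      · rw [Matrix.one_apply_eq, mul_one]
      · intro s _ hs
        rw [Matrix.one_apply_ne hs, mul_zero]
      · intro h
        exact absurd (Finset.mem_univ _) h
    rw [e1]
    simp only [Matrix.mul_apply, Finset.mul_sum]
    rw [Finset.sum_comm]
    refine Finset.sum_eq_zero fun y _ => ?_
    have e2 : ∑ s, q s * (W s y * W' y s') = (∑ s, q s * W s y) * W' y s' := by
      rw [Finset.sum_mul]
      refine Finset.sum_congr rfl fun s _ => ?_
      ring
    rw [e2, hq y, zero_mul]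
  constructor
  · intro l
    have e1 := hq0 (Sum.inr l)
    simp only [q, Sum.elim_inr, Ysp, fromBlocks_apply₁₂, reduceCtorEq, if_false, sub_zero,
      zero_sub, neg_eq_zero] at e1
    exact e1
  · intro l hl
    have e1 := hq0 (Sum.inl l)
    have hne : (Sum.inl l : S m) ≠ Sum.inl i := by
      intro h
      have := Sum.inl_injective h
      rw [this] at hl
      omega
    have hcl : c l = 0 := by
      refine Finset.sum_eq_zero fun j _ => ?_
      rw [dif_neg (by omega), mul_zero]
    simp only [q, Sum.elim_inl, Ysp, fromBlocks_apply₁₁, if_neg hne, sub_zero, hcl,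
      zero_sub, neg_eq_zero] at e1
    exact e1

end van

/-- the directions for `2 ≤ p` -/
def phi2 (m : ℕ) (L : Type) [Field L] : ((Fin m → L) × L × L) →ₗ[L]
    (Matrix (Fin m) (Fin m) L × Matrix (Fin m) (Fin m) L) where
  toFun w := (0, Matrix.of fun i j => if (i : ℕ) = 0 then w.1 j else if (j : ℕ) = 0 then w.1 i else
    if (i : ℕ) = 1 ∧ (j : ℕ) = 1 then w.2.1 else
      if ((i : ℕ) = 1 ∧ (j : ℕ) = 2) ∨ ((i : ℕ) = 2 ∧ (j : ℕ) = 1) then w.2.2 else 0)
  map_add' w w' := by
    refine Prod.ext (by simp) ?_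
    ext i j
    simp only [Prod.fst_add, Prod.snd_add, Matrix.of_apply, Matrix.add_apply, Pi.add_apply]
    split_ifs <;> simp
  map_smul' a w := by
    refine Prod.ext (by simp) ?_
    ext i j
    simp only [Prod.smul_fst, Prod.smul_snd, Matrix.of_apply, Matrix.smul_apply, Pi.smul_apply,
      RingHom.id_apply]
    split_ifs <;> simp

/-- the directions for `p = 1` -/
def phi1 (m : ℕ) (L : Type) [Field L] : ((Fin m → L) × L × L) →ₗ[L]
    (Matrix (Fin m) (Fin m) L × Matrix (Fin m) (Fin m) L) where
  toFun w := (Matrix.of fun i j => if (i : ℕ) = 0 ∧ (j : ℕ) = 1 then w.2.1 else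
      if (i : ℕ) = 0 ∧ (j : ℕ) = 2 then w.2.2 else 0,
    Matrix.of fun i j => if (i : ℕ) = 0 then w.1 j else if (j : ℕ) = 0 then w.1 i else 0)
  map_add' w w' := by
    refine Prod.ext ?_ ?_
    · ext i j
      simp only [Prod.fst_add, Prod.snd_add, Matrix.of_apply, Matrix.add_apply]
      split_ifs <;> simp
    · ext i j
      simp only [Prod.fst_add, Prod.snd_add, Matrix.of_apply, Matrix.add_apply, Pi.add_apply]
      split_ifs <;> simp
  map_smul' a w := by
    refine Prod.ext ?_ ?_
    · ext i j
      simp only [Prod.smul_fst, Prod.smul_snd, Matrix.of_apply, Matrix.smul_apply,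
        RingHom.id_apply]
      split_ifs <;> simp
    · ext i j
      simp only [Prod.smul_fst, Prod.smul_snd, Matrix.of_apply, Matrix.smul_apply, Pi.smul_apply,
        RingHom.id_apply]
      split_ifs <;> simp

/-- **No step of the flag is defined over the small field.** -/
theorem t_STEP (hK : T_KER) : T_STEP := by
  classical
  intro k L _ _ _ _ m hm ι _ _ G T hDat p hp1 hpm x e e' h1 h2
  obtain ⟨G', hG'⟩ := hDat.invG
  obtain ⟨T', hT', -⟩ := hDat.invT
  have hW' : ∃ W' : Matrix ι (S m) L, (G * T) * W' = 1 := by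
    refine ⟨T' * G', ?_⟩
    have e1 : G * T * (T' * G') = G * (T * T') * G' := by
      simp only [Matrix.mul_assoc]
    rw [e1, hT', Matrix.mul_one, hG']
  -- the general argument
  have key : ∀ φ : ((Fin m → L) × L × L) →ₗ[L]
      (Matrix (Fin m) (Fin m) L × Matrix (Fin m) (Fin m) L), (∀ w, (φ w).2ᵀ = (φ w).2) →
      (∀ w, (∀ i : Fin m, (i : ℕ) < p → (∀ l, (φ w).2 i l = 0) ∧
        ∀ l : Fin m, p ≤ (l : ℕ) → (φ w).1 i l = 0) → w = 0) → False := by
    intro φ hsym hφ
    have hinj : Function.Injective φ := by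
      rw [injective_iff_map_eq_zero]
      intro w hw
      apply hφ
      intro i _
      rw [hw]
      exact ⟨fun l => rfl, fun l _ => rfl⟩
    have hrk : m + 2 ≤ Module.finrank L (LinearMap.range φ) := by
      rw [LinearMap.finrank_range_of_inj hinj, Module.finrank_prod, Module.finrank_prod,
        Module.finrank_fin_fun, Module.finrank_self]
    obtain ⟨q, ⟨w, rfl⟩, hq0, D, z, hG, hT⟩ := hK k L m ι G T hDat (LinearMap.range φ)
      (by rintro _ ⟨w, rfl⟩; exact hsym w) hrk
    apply hq0
    have hw : w = 0 := hφ w fun i hi => vanish p x e e' hW' h1 h2 D z _ _ hG hT i hi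
    rw [hw, map_zero]
  rcases Nat.lt_or_ge 1 p with hp | hp
  · refine key (phi2 m L) (fun w => ?_) fun w hw => ?_
    · ext i j
      simp only [phi2, LinearMap.coe_mk, AddHom.coe_mk, Matrix.transpose_apply, Matrix.of_apply]
      split_ifs <;> first | rfl | omega | skip
      all_goals
        have : i = j := Fin.ext (by omega)
        rw [this]
    · have e0 := hw ⟨0, by omega⟩ (by simp; omega)
      have e1 := hw ⟨1, by omega⟩ (by simp; omega)
      refine Prod.ext ?_ (Prod.ext ?_ ?_)
      · funext l
        have := e0.1 l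
        simpa [phi2] using this
      · have := e1.1 ⟨1, by omega⟩
        simpa [phi2] using this
      · have := e1.1 ⟨2, by omega⟩
        simpa [phi2] using this
  · have hp' : p = 1 := by omega
    refine key (phi1 m L) (fun w => ?_) fun w hw => ?_
    · ext i j
      simp only [phi1, LinearMap.coe_mk, AddHom.coe_mk, Matrix.transpose_apply, Matrix.of_apply]
      split_ifs <;> first | rfl | omega | skip
      all_goals
        have : i = j := Fin.ext (by omega)
        rw [this]
    · have e0 := hw ⟨0, by omega⟩ (by simp; omega)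
      refine Prod.ext ?_ (Prod.ext ?_ ?_)
      · funext l
        have := e0.1 l
        simpa [phi1] using this
      · have := e0.2 ⟨1, by omega⟩ (by simp; omega)
        simpa [phi1] using this
      · have := e0.2 ⟨2, by omega⟩ (by simp; omega)
        simpa [phi1] using this

end Pool.Agent.Y929.HG
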